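import Mathlib
import Pool.Agent.H54.SuperCat3

namespace Pool.Agent.Results.MP_147bb8_nt.Div

open Nat Finset Pool.Agent.H54.SuperCat

/-- the integer `a_k` -/
def a (k : ℕ) : ℤ := (28 * k ^ 2 + 18 * k + 3) * ((2 * k).choose k : ℤ) ^ 4 * ((3 * k).choose k : ℤ)

/-- the sum of Q2 -/
def S (n : ℕ) : ℤ := ∑ k ∈ range n, a k * (-64) ^ (n - 1 - k)

def T (j n : ℕ) : ℚ := (-1) ^ j * (2 * n + j)! * h j * h n ^ 2 / (j ! ^ 3 * n ! ^ 2 * (2 * n - j)!)
def W (j n : ℕ) : ℚ := T j n * (12 * n ^ 2 * (2 * n - j) / (2 * n + j))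
def V (j n : ℕ) : ℚ := T j n * (12 * j ^ 2 * (n / (2 * n + j) - (2 * n + 1) / (2 * (2 * n + 1 - j))))

lemma cl (j d : ℕ) : W j (j + d + 1 + 1) - W j (j + d + 1) = V (j + 1) (j + d + 1) - V j (j + d + 1) := by
  have h1 : (2 * ((j : ℚ) + d + 1) + 1 - (j + 1)) = j + 2 * d + 2 := by ring
  have h2 : (2 * ((j : ℚ) + d + 1) + 1 - j) = j + 2 * d + 3 := by ring
  simp only [W, V, T, show 2 * (j + d + 1 + 1) - j = j + 2 * d + 1 + 1 + 1 + 1 by omega,
    show 2 * (j + d + 1) - j = j + 2 * d + 1 + 1 by omega,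
    show 2 * (j + d + 1) - (j + 1) = j + 2 * d + 1 by omega,
    show 2 * (j + d + 1 + 1) + j = 2 * (j + d + 1) + j + 1 + 1 by ring,
    show 2 * (j + d + 1) + (j + 1) = 2 * (j + d + 1) + j + 1 by ring,
    factorial_succ (j + 2 * d + 1 + 1 + 1), factorial_succ (j + 2 * d + 1 + 1), factorial_succ (j + 2 * d + 1),
    factorial_succ (2 * (j + d + 1) + j + 1), factorial_succ (2 * (j + d + 1) + j),
    factorial_succ (j + d + 1), factorial_succ j, h.eq_2 (j + d + 1), h.eq_2 j, pow_succ (-1 : ℚ)]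
  push_cast
  rw [h1, h2]
  field_simp
  ring

lemma dg (n : ℕ) : V n n + W n (n + 1) = (28 * n ^ 2 + 18 * n + 3) * T n n := by
  rcases Nat.eq_zero_or_pos n with rfl | ht
  · norm_num [V, W, T, factorial, h]
  have : (0 : ℚ) < n := by exact_mod_cast ht
  have h2 : (2 * (n : ℚ) + 1 - n) = n + 1 := by ring
  simp only [W, V, T, show 2 * (n + 1) - n = n + 1 + 1 by omega, show 2 * n - n = n by omega,
    show 2 * (n + 1) + n = 2 * n + n + 1 + 1 by ring, factorial_succ, h.eq_2]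
  push_cast
  rw [h2]
  field_simp
  ring

lemma tel (m n : ℕ) (hm : m ≤ n) :
    ∑ j ∈ range m, W j (n + 1) = ∑ j ∈ range m, W j n + V m n := by
  induction m with
  | zero => simp [V]
  | succ m ih =>
    rw [sum_range_succ, ih (by omega), sum_range_succ]
    obtain ⟨d, rfl⟩ : ∃ d, n = m + d + 1 := ⟨n - m - 1, by omega⟩
    linarith [cl m d]

lemma psi (n : ℕ) : ∑ j ∈ range n, W j n = ∑ k ∈ range n, (28 * k ^ 2 + 18 * k + 3) * T k k := by
  induction n with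
  | zero => rfl
  | succ n ih => rw [sum_range_succ, tel n n le_rfl, ih, sum_range_succ, ← dg]; ring

lemma aT (k : ℕ) : (a k : ℚ) = (-64) ^ k * ((28 * k ^ 2 + 18 * k + 3) * T k k) := by
  have h3 := c3 k
  simp only [a, T, show 2 * k - k = k by omega, show 2 * k + k = 3 * k by ring]
  push_cast
  rw [show ((2 * k).choose k : ℚ) ^ 4 = ((2 * k).choose k : ℚ) ^ 2 * ((2 * k).choose k : ℚ) ^ 2 by ring,
    mul_assoc, mul_assoc, h3, cb, show (-64 : ℚ) = (-1) * (4 * 4 * 4) by norm_num, mul_pow, mul_pow, mul_pow]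
  have : ((-1 : ℚ) ^ k) ^ 2 = 1 := by rw [← pow_mul]; exact Even.neg_one_pow ⟨k, by ring⟩
  field_simp
  rw [this, mul_one]

lemma S_eq (n : ℕ) : (S (n + 1) : ℚ) = (-64) ^ n * ∑ j ∈ range (n + 1), W j (n + 1) := by
  rw [psi, S, mul_sum]
  push_cast
  refine sum_congr rfl fun k hk => ?_
  obtain ⟨e, rfl⟩ := Nat.exists_eq_add_of_le (Nat.lt_succ_iff.1 (mem_range.1 hk))
  rw [aT, show k + e - k = e by omega, pow_add]
  ring

lemma tm (j e : ℕ) : ∃ y : ℤ, (-64 : ℚ) ^ (j + e) * W j (j + e + 1) =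
    ((j + e + 1 : ℕ) : ℚ) ^ 2 * (4 ^ (j + e + 1) * h (j + e + 1) / (j + e + 1)!) ^ 2 *
      (4 ^ e * (4 ^ j * h j / j !) ^ 2 / 4 * y) := by
  obtain ⟨x, hx⟩ := bin (2 * j) (j + 2 * e + 1)
  refine ⟨3 * (-1) ^ e * x, ?_⟩
  have : ((-1 : ℚ) ^ j) ^ 2 = 1 := by rw [← pow_mul]; exact Even.neg_one_pow ⟨j, by ring⟩
  have h0 := h_pos j
  have h1 : ((2 * j)! : ℚ) = 4 ^ j * j ! * h j := by rw [h_eq]; field_simp
  push_cast
  rw [← hx, h1]
  simp only [W, T, show 2 * (j + e + 1) - j = j + 2 * e + 1 + 1 by omega,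
    show 2 * (j + e + 1) + j = 2 * j + (j + 2 * e + 1) + 1 by ring, factorial_succ (j + 2 * e + 1),
    factorial_succ (2 * j + (j + 2 * e + 1)), show (-64 : ℚ) = (-1) * (4 * 4 * 4) by norm_num, mul_pow,
    pow_add (-1 : ℚ)]
  push_cast
  field_simp
  linear_combination (48 * 4 ^ (3 * j + 3 * e) * h (j + e + 1) ^ 2 * ((j : ℚ) + 2 * e + 2) * (3 * j + 2 * e + 2)) * this

lemma one (n : ℕ) : ∃ z : ℤ, (S (n + 2) : ℚ) =
    ((n + 2 : ℕ) : ℚ) ^ 2 * (4 ^ (n + 2) * h (n + 2) / (n + 2)!) ^ 2 * z := by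
  have hp := h_pos (n + 2)
  obtain ⟨z, hz⟩ := sum_int (n := n + 2) (f := fun j => (-64 : ℚ) ^ (n + 1) * W j (n + 2) /
      (((n + 2 : ℕ) : ℚ) ^ 2 * (4 ^ (n + 2) * h (n + 2) / (n + 2)!) ^ 2)) fun j hj => by
    obtain ⟨e, he⟩ := Nat.exists_eq_add_of_le (Nat.lt_succ_iff.1 hj)
    obtain ⟨y, hy⟩ := tm j e
    have hq := h_pos (j + e + 1)
    rw [show n + 2 = j + e + 1 by omega, he, hy, mul_div_cancel_left₀ _ (by positivity)]
    cases e with
    | succ e => exact ⟨4 ^ e * ((2 * j).choose j) ^ 2 * y, by push_cast; rw [cb]; ring⟩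
    | zero =>
      obtain rfl : j = n + 1 := by omega
      obtain ⟨w, hw⟩ := even_cb n
      exact ⟨w ^ 2 * y, by rw [hw]; push_cast; ring⟩
  refine ⟨z, ?_⟩
  rw [S_eq, ← hz, mul_sum, mul_sum]
  refine sum_congr rfl fun j _ => ?_
  rw [mul_div_cancel₀ _ (by positivity)]

lemma step (n : ℕ) : S (n + 2) = -64 * S (n + 1) + a (n + 1) := by
  rw [S, S, sum_range_succ, mul_sum]
  congr 1
  · refine sum_congr rfl fun k hk => ?_
    rw [show n + 2 - 1 - k = n + 1 - 1 - k + 1 by have := mem_range.1 hk; omega, pow_succ]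
    ring
  · simp

theorem result (n : ℕ) (hn : 1 < n) :
    ((2 * n + 1) * n ^ 2 * ((2 * n).choose n : ℤ) ^ 2) ∣ S n := by
  obtain ⟨m, rfl⟩ : ∃ m, n = m + 2 := ⟨n - 2, by omega⟩
  obtain ⟨x, hx⟩ := one m
  obtain ⟨y, hy⟩ := one (m + 1)
  obtain ⟨f, hf⟩ := fc (m + 2)
  have hs := step (m + 1)
  set N := m + 2 with hN
  have hC : (4 ^ (m + 1 + 2) * h (m + 1 + 2) / (m + 1 + 2)! : ℚ) * ((m + 1 + 2 : ℕ) : ℚ) =
      2 * (2 * N + 1) * ((2 * N).choose N : ℚ) := by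
    rw [cb, show m + 1 + 2 = N + 1 from rfl, h.eq_2, factorial_succ]
    push_cast
    field_simp
    ring
  have h3 : ((3 * N).choose N : ℚ) = (2 * N + 1) * f := by
    rw [← hf, Nat.cast_choose ℚ (by omega), show 3 * N - N = 2 * N by omega]
    field_simp
  rw [← cb] at hx
  have hCp : (0 : ℚ) < (2 * N).choose N := by exact_mod_cast Nat.choose_pos (by omega)
  have key : (64 * N ^ 2 * x : ℤ) = (2 * N + 1) * ((28 * N ^ 2 + 18 * N + 3) * ((2 * N).choose N : ℤ) ^ 2 * f -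
      4 * (2 * N + 1) * y) := by
    have e1 : (S (m + 1 + 2) : ℚ) = -64 * S N + a N := by exact_mod_cast hs
    rw [hy, hx, ← mul_pow, mul_comm ((m + 1 + 2 : ℕ) : ℚ), hC, a] at e1
    push_cast at e1
    rw [h3] at e1
    have e2 : (64 * N ^ 2 * x : ℚ) = (2 * N + 1) * ((28 * N ^ 2 + 18 * N + 3) * ((2 * N).choose N : ℚ) ^ 2 * f -
        4 * (2 * N + 1) * y) := by
      apply mul_left_cancel₀ (pow_ne_zero 2 hCp.ne')
      linear_combination e1
    exact_mod_cast e2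
  have hc : IsCoprime (2 * (N : ℤ) + 1) (64 * N ^ 2) := by
    have c1 : IsCoprime (2 * (N : ℤ) + 1) (2 * N) := ⟨1, -1, by ring⟩
    have c2 : IsCoprime (2 * (N : ℤ) + 1) 2 := ⟨1, -N, by ring⟩
    rw [show (64 * N ^ 2 : ℤ) = (2 * N) ^ 2 * 2 ^ 4 by ring]
    exact (c1.pow_right).mul_right c2.pow_right
  obtain ⟨w, hw⟩ := hc.dvd_of_dvd_mul_left ⟨_, key⟩
  refine ⟨w, ?_⟩
  have : S N = N ^ 2 * ((2 * N).choose N : ℤ) ^ 2 * x := by exact_mod_cast hx
  rw [this, hw]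
  ring

end Pool.Agent.Results.MP_147bb8_nt.Div
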